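import Pool.Agent.MP_c69980_ag.H43.Spec10

/-!
The entire curve: the lift of a generic line of the leaf.
-/

set_option autoImplicit false

namespace Pool.Agent.MP_c69980_ag.H43

open MvPolynomial H60 Finset Filter Topology Metric

lemma b2_qq {t a m : ℕ} (p₀ : Pt t a) (lam : Fin (m + 1) → Pt t a) (s₀ : Fin (m + 1) → ℂ) (τ : ℂ) :
    qq p₀ lam (s₀ + τ • Pi.single 0 1) - qq p₀ lam (s₀ + (0 : ℂ) • Pi.single 0 1) = τ • lam 0 := by
  simp [qq, add_smul, sum_add_distrib, Fin.sum_univ_succ]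

theorem sB2 (h1 : SAvoid) (h2 : SRelK) (h3 : SDisc) : SB2 := by
  intro t a M n w Θ PP K _ _ U z u R k F p₀ m lam δ f N hG hM hF
  obtain ⟨s₀, g0, hs⟩ := h1 t a M w Θ F p₀ m lam (Pi.single 0 1) hG.toGA1 hF.cnt hF.axo.ind
  have hR := h2 t a M n w Θ K U z u hM
  have good := fun τ : ℂ => hF.good _ (hs τ)
  refine ⟨fun τ => f (s₀ + τ • Pi.single 0 1), fun τ _ => ?_, ?_, ?_, 0, ?_⟩
  · obtain ⟨g, hg, he⟩ := (good τ).2.2.2
    have hl : ContDiffAt ℂ 1 (fun τ : ℂ => s₀ + τ • (Pi.single 0 1 : Fin (m + 1) → ℂ)) τ := by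
      fun_prop
    refine ⟨fun τ => g (s₀ + τ • Pi.single 0 1), ?_, hl.continuousAt.tendsto.eventually he⟩
    have hc : ContDiffAt ℂ 1 (fun τ : ℂ => g (s₀ + τ • Pi.single 0 1)) τ := hg.comp τ hl
    rw [Complex.analyticAt_iff_eventually_differentiableAt]
    exact (hc.eventually (by simp)).mono fun x hx => hx.differentiableAt (by simp)
  · rintro _ ⟨τ, rfl⟩
    exact (good τ).1
  · by_contra hn
    push Not at hn
    have hl : ∀ τ : ℂ, τ • lam 0 ∈ Lam Θ := by
      intro τ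
      rw [← b2_qq p₀ lam s₀ τ, ← hG.par]
      refine hR.uni _ (good 0).1 _ _ ?_ (good 0).2.1 fun e => ?_
      · rw [hn 0 τ]
        exact (good τ).2.1
      · obtain ⟨b, -, hb⟩ := hG.blk (qq p₀ lam (s₀ + (0 : ℂ) • Pi.single 0 1)) none
        exact hb (congrFun e b)
    have hc : (Set.univ : Set ℂ).Countable :=
      Set.MapsTo.countable_of_injOn (f := fun τ : ℂ => τ • lam 0) (fun τ _ => hl τ)
        (smul_left_injective ℂ (hF.axo.ind.ne_zero 0)).injOn (h3 t a M w Θ hG).2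
    exact not_countable_complex hc
  · simpa using hF.gen s₀ g0

end Pool.Agent.MP_c69980_ag.H43
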